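import Pool.Agent.H852R2.TE.DIAME

/-!
MP_75608d_al.  The diameter of random Cayley graphs of alternating groups: for every `ε > 0` there
is a fixed `k₀` such that for every `k ≥ k₀`, with probability tending to `1` as `n → ∞`, every
element of `A_n` is a product of at most `n ^ (1 + ε)` factors from `{x_i, x_i⁻¹}`, where
`x_1, …, x_k` are independent uniform random elements of `A_n`.
-/

namespace Pool.Agent.Results.MP_75608d_al.Diameter
open RC14 Finset Filter Topology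

/-- every element of `G` is a product of at most `D` factors from `{x_i, x_i⁻¹}` -/
def DiamAtMost {G : Type*} [Group G] {k : ℕ} (x : Fin k → G) (D : ℝ) : Prop :=
  ∀ g : G, ∃ w : List G, (w.length : ℝ) ≤ D ∧ (∀ y ∈ w, ∃ i, y = x i ∨ y = (x i)⁻¹) ∧ w.prod = g

lemma diam_of_Len {G : Type*} [Group G] {k : ℕ} (x : Fin k → G) (D : ℝ) (hD : 0 ≤ D)
    (h : ∀ g : G, DM852.Len x ⌊D⌋₊ g) : DiamAtMost x D := by
  intro g
  obtain ⟨w, hw, e⟩ := h g
  refine ⟨w.map (RC852.sl x), ?_, ?_, e⟩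
  · rw [List.length_map]
    exact (Nat.cast_le.mpr hw).trans (Nat.floor_le hD)
  · intro y hy
    obtain ⟨p, _, rfl⟩ := List.mem_map.mp hy
    refine ⟨p.1, ?_⟩
    rcases p with ⟨i, s⟩
    cases s <;> simp [RC852.sl]

theorem result (ε : ℝ) (hε : 0 < ε) : ∃ k₀ : ℕ, ∀ k ≥ k₀,
    Tendsto (fun n : ℕ =>
      (Nat.card {x : Fin k → Alt n // DiamAtMost x ((n : ℝ) ^ (1 + ε))} : ℝ) /
        (Fintype.card (Alt n) : ℝ) ^ k) atTop (𝓝 1) := by
  obtain ⟨k0, hk0⟩ := TE852.DIAME ε hε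
  refine ⟨k0, fun k hk => ?_⟩
  have key : ∀ ε0 : ℝ, 0 < ε0 → ∀ᶠ n : ℕ in atTop, (Nat.card {x : Fin k → Alt n //
      ¬ DiamAtMost x ((n : ℝ) ^ (1 + ε))} : ℝ) ≤
        ε0 * (Fintype.card (Alt n) : ℝ) ^ k := by
    intro ε0 hε0
    filter_upwards [hk0 k hk ε0 hε0] with n hn
    refine le_trans ?_ hn
    have := RC14.card_mono (fun x : Fin k → Alt n => ¬ DiamAtMost x ((n : ℝ) ^ (1 + ε)))
      (fun x => ¬ ∀ g : Alt n, DM852.Len x ⌊(n : ℝ) ^ (1 + ε)⌋₊ g)
      (fun x hx h => hx (diam_of_Len x _ (by positivity) h))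
    exact_mod_cast this
  have hpos : ∀ n : ℕ, (0 : ℝ) < (Fintype.card (Alt n) : ℝ) := fun n => by
    exact_mod_cast Fintype.card_pos
  refine tendsto_order.mpr ⟨fun b hb => ?_, fun b hb => ?_⟩
  · filter_upwards [key ((1 - b) / 2) (by linarith)] with n hn
    have hA := hpos n
    rw [lt_div_iff₀ (by positivity), RC14.card_compl, Fintype.card_fun, Fintype.card_fin]
    push_cast
    have hp : (0 : ℝ) < (Fintype.card (Alt n) : ℝ) ^ k := by positivity
    nlinarith
  · refine Eventually.of_forall fun n => lt_of_le_of_lt ?_ hb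
    have hA := hpos n
    rw [div_le_one (by positivity), RC14.card_compl, Fintype.card_fun, Fintype.card_fin]
    push_cast
    linarith [Nat.cast_nonneg (α := ℝ) (Nat.card {x : Fin k → Alt n //
      ¬ DiamAtMost x ((n : ℝ) ^ (1 + ε))})]

end Pool.Agent.Results.MP_75608d_al.Diameter
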