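import Pool.Agent.H14R2.LL.MAINH

/-!
MP_75608d_al.  There is `C > 0` such that for all large `n` and all `k ≥ C (log log n)²`: all but
a proportion `2/√n` of the `k`-tuples of elements of `A_n` are expanding generating sets with
constant `(log n)^{-C}`.
-/

namespace Pool.Agent.Results.MP_75608d_al.FewGenerators
open RC14 Finset Filter Topology

theorem result : ∃ C : ℝ, 0 < C ∧ ∀ᶠ n : ℕ in atTop, ∀ k : ℕ,
    C * (Real.log (Real.log n)) ^ 2 ≤ k →
    (Nat.card {x : Fin k → Alt n // ¬ Expanding ((Real.log n) ^ (-C)) x} : ℝ) ≤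
      2 / Real.sqrt n * (Fintype.card (Alt n) : ℝ) ^ k :=
  LL14.MAINH

end Pool.Agent.Results.MP_75608d_al.FewGenerators
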