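import Pool.Agent.H852R2.TE.S.FIN

/-!
MP_75608d_al.  For a fixed number of random even permutations: a uniform spectral gap for the
Schreier graphs on `r`-tuples for all `r ≤ n^{1-δ}`, and for the walk on `A_n` itself on all
functions of level at most `n^{1-δ}`, for every `δ > 0`.
-/

namespace Pool.Agent.Results.MP_75608d_al.GapAllTuples
open RC14 Finset Filter Topology

noncomputable section

/-- the averaging operator of the Schreier graph of `A_n` on `r`-tuples of distinct points: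
`(P f)(a) = (1/2k) ∑_i (f(x_i a) + f(x_i⁻¹ a))` -/
def swalk {r n k : ℕ} (x : Fin k → Alt n) (f : Tup r n → ℝ) (a : Tup r n) : ℝ :=
  (∑ i, (f (mv (x i : Equiv.Perm (Fin n)) a) + f (mv (x i : Equiv.Perm (Fin n))⁻¹ a))) / (2 * k)

/-- the random walk on `A_n` has gap at least `ε` on the mean zero functions of level `≤ m`, and
so have all Schreier graphs on `r`-tuples, `r ≤ m` -/
def GapUpTo (n m : ℕ) {k : ℕ} (ε : ℝ) (x : Fin k → Alt n) : Prop :=
  (∀ f ∈ lowLevel n m, ∑ g, f g = 0 →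
    ∑ g, f g * walk x f g ≤ (1 - ε) * ∑ g, f g ^ 2) ∧
  ∀ r ≤ m, ∀ f : Tup r n → ℝ, ∑ a, f a = 0 →
    ∑ a, f a * swalk x f a ≤ (1 - ε) * ∑ a, f a ^ 2

lemma gap_of_good (n m k : ℕ) (hm : m + 2 ≤ n) (hk : 1 ≤ k) (c : ℝ)
    (x : Fin k → Alt n) (h : Good1 n m c x) : GapUpTo n m (c / (2 * k)) x :=
  ⟨fun f hf h0 => FRLOW n m k hk x c h f hf h0,
    fun r hr f h0 => FRSCH n m k hm hk x c h r hr f h0⟩

theorem result (δ : ℝ) (hδ : 0 < δ) : ∃ k₀ : ℕ, ∀ k ≥ k₀, ∃ ε : ℝ, 0 < ε ∧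
    Tendsto (fun n : ℕ =>
      (Nat.card {x : Fin k → Alt n // GapUpTo n ⌊(n : ℝ) ^ (1 - δ)⌋₊ ε x} : ℝ) /
        (Fintype.card (Alt n) : ℝ) ^ k) atTop (𝓝 1) := by
  obtain ⟨k0, hk0⟩ := TE852.GAPE (1 - δ) (TE852.TEMAIN (1 - δ) (by linarith))
  refine ⟨k0 + 1, fun k hk => ?_⟩
  obtain ⟨c, hc, B, hB, hgap⟩ := hk0 k (by omega)
  have hk1 : 1 ≤ k := by omega
  have hkpos : (0 : ℝ) < k := by exact_mod_cast hk1
  refine ⟨c / (2 * k), by positivity, ?_⟩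
  have hm2 : ∀ᶠ n : ℕ in atTop, TE852.Rr (1 - δ) n + 2 ≤ n := by
    filter_upwards [ev_le (1 - δ) 1 2 (by linarith), eventually_ge_atTop 4] with n h1 h2
    have h3 : (TE852.Rr (1 - δ) n : ℝ) ≤ (n : ℝ) ^ (1 - δ) := Nat.floor_le (by positivity)
    rw [Real.rpow_one] at h1
    have h4 : (4 : ℝ) ≤ n := by exact_mod_cast h2
    have h5 : (TE852.Rr (1 - δ) n : ℝ) + 2 ≤ n := by linarith
    exact_mod_cast h5
  have key : ∀ ε0 : ℝ, 0 < ε0 → ∀ᶠ n : ℕ in atTop, (Nat.card {x : Fin k → Alt n //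
      ¬ GapUpTo n ⌊(n : ℝ) ^ (1 - δ)⌋₊ (c / (2 * k)) x} : ℝ) ≤
        ε0 * (Fintype.card (Alt n) : ℝ) ^ k := by
    intro ε0 hε0
    have hlim : ∀ᶠ n : ℕ in atTop, B / ε0 ≤ (n : ℝ) ^ (1 : ℝ) := ev_const 1 _ (by norm_num)
    filter_upwards [hgap, hm2, hlim, eventually_ge_atTop 1] with n h1 h2 h3 h4
    have hn : (0 : ℝ) < n := by exact_mod_cast h4
    rw [Real.rpow_one, div_le_iff₀ hε0] at h3
    have h5 := RC14.card_mono (fun x : Fin k → Alt n =>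
      ¬ GapUpTo n ⌊(n : ℝ) ^ (1 - δ)⌋₊ (c / (2 * k)) x)
      (fun x => ¬ Good1 n (TE852.Rr (1 - δ) n) c x)
      (fun x hx h => hx (gap_of_good n _ k h2 hk1 c x h))
    have h6 : B / (n : ℝ) ≤ ε0 := by
      rw [div_le_iff₀ hn]; linarith
    calc (Nat.card {x : Fin k → Alt n //
          ¬ GapUpTo n ⌊(n : ℝ) ^ (1 - δ)⌋₊ (c / (2 * k)) x} : ℝ)
        ≤ (Nat.card {x : Fin k → Alt n // ¬ Good1 n (TE852.Rr (1 - δ) n) c x} : ℝ) := by
          exact_mod_cast h5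
      _ ≤ _ := h1
      _ ≤ ε0 * (Fintype.card (Alt n) : ℝ) ^ k := by gcongr
  have hpos : ∀ n : ℕ, (0 : ℝ) < (Fintype.card (Alt n) : ℝ) := fun n => by
    exact_mod_cast Fintype.card_pos
  refine tendsto_order.mpr ⟨fun b hb => ?_, fun b hb => ?_⟩
  · filter_upwards [key ((1 - b) / 2) (by linarith)] with n hn
    have hA := hpos n
    rw [lt_div_iff₀ (by positivity), RC14.card_compl, Fintype.card_fun, Fintype.card_fin]
    push_cast
    have hp : (0 : ℝ) < (Fintype.card (Alt n) : ℝ) ^ k := by positivity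
    nlinarith
  · refine Eventually.of_forall fun n => lt_of_le_of_lt ?_ hb
    have hA := hpos n
    rw [div_le_one (by positivity), RC14.card_compl, Fintype.card_fun, Fintype.card_fin]
    push_cast
    linarith [Nat.cast_nonneg (α := ℝ) (Nat.card {x : Fin k → Alt n //
      ¬ GapUpTo n ⌊(n : ℝ) ^ (1 - δ)⌋₊ (c / (2 * k)) x})]

end

end Pool.Agent.Results.MP_75608d_al.GapAllTuples
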