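import Pool.Agent.H14R2.RD.R4f

/-!
MP_75608d_al.  For all large `n` and all `R ≥ 1`: all but a proportion `8/n` of the `k`-tuples of
elements of `A_n`, for every `k ≥ C R n^{1/R}`, are expanding generating sets with constant
`c / R`.  For instance `C log n` random elements of `A_n` have spectral gap at least `c / log n`.
-/

namespace Pool.Agent.Results.MP_75608d_al.ManyGenerators
open RC14 Finset Filter Topology

theorem result : ∃ c : ℝ, 0 < c ∧ ∃ C : ℝ, 0 < C ∧ ∀ᶠ n : ℕ in atTop, ∀ R k : ℕ, 1 ≤ R →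
    C * (R : ℝ) * (n : ℝ) ^ (1 / (R : ℝ)) ≤ k →
    (Nat.card {x : Fin k → Alt n // ¬ Expanding (c / (R : ℝ)) x} : ℝ) ≤
      8 / (n : ℝ) * (Fintype.card (Alt n) : ℝ) ^ k :=
  ⟨1 / 12000, by norm_num, 4 * 10 ^ 10, by norm_num, R4uni⟩

end Pool.Agent.Results.MP_75608d_al.ManyGenerators
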